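import Pool.Agent.Lib.MP_0b6b0e_gt.ZB.Defs

set_option autoImplicit false

open Set Filter Topology MeasureTheory

open scoped InnerProductSpace

namespace Pool.Agent.Lib.MP_0b6b0e_gt.ZB.H68

open Pool.Agent.Lib.MP_0b6b0e_gt.ZB

/-- Module FN: the positive answer for `n ≥ 3` from the modules GN, LC, SC and GB. -/
theorem fn (GN : GNStatement) (LC : LCStatement) (SC : SCStatement) (GB : GBStatement) :
    PosStatement := by
  intro n i hn hi hin
  have h1 : ∀ᶠ K : Body n in residual (Body n),
      Smooth (gf K) ∧ NoCommon (gf K) ∧ Rich (gf K) := GN n (by omega)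
  have h2 : ∀ᶠ K : Body n in residual (Body n), K ∈ (Bad n i)ᶜ := by
    filter_upwards [h1] with K hK
    rintro ⟨L, hLK, hLK', hsec⟩
    have hch : Chord i (gf K) (gf L) := SC n i hi hin K L hsec
    rcases LC n i hn hi (gf K) (gf L) (GB.1 n K) (GB.1 n L) hK.1 hK.2.1 hK.2.2 hch with h | h
    · have h3 : K = L := GB.2.1 n K L (funext fun x => (h x).symm)
      exact hLK (by rw [h3])
    · exact hLK' (GB.2.2.1 n K L h)
  exact h2

end Pool.Agent.Lib.MP_0b6b0e_gt.ZB.H68
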